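import Pool.Agent.H85.LSP.Nr

/-!
# LSP: `CNT`, `CN1`, `LSM`
-/

set_option autoImplicit false

namespace Pool.LSP

open Finset Filter Topology

section

open Classical in
/-- The number of bad functions. -/
theorem cnt_bad {I : Type} [Fintype I] (q K : ℕ) (B : (I → Fin q) → Prop) (i : I)
    (h : ∀ g : I → Fin q, (univ.filter (fun a : Fin q => B (Function.update g i a))).card ≤ K) :
    (univ.filter fun g : I → Fin q => B g).card * q ≤ Fintype.card (I → Fin q) * K := by
  have h1 : ((univ.filter fun g : I → Fin q => B g) ×ˢ (univ : Finset (Fin q))).card ≤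
      ((univ : Finset (I → Fin q)).sigma fun g =>
        univ.filter (fun a : Fin q => B (Function.update g i a))).card := by
    refine Finset.card_le_card_of_injOn (fun x => ⟨Function.update x.1 i x.2, x.1 i⟩) ?_ ?_
    · intro x hx
      have hx' := (mem_filter.1 (mem_product.1 (Finset.mem_coe.1 hx)).1).2
      refine Finset.mem_coe.2 (mem_sigma.2 ⟨mem_univ _, mem_filter.2 ⟨mem_univ _, ?_⟩⟩)
      simpa using hx'
    · rintro ⟨g, a⟩ - ⟨g', a'⟩ - hh
      simp only [Sigma.mk.injEq, heq_eq_eq] at hh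
      obtain ⟨h1, h2⟩ := hh
      have e1 := congrFun h1 i
      simp only [Function.update_self] at e1
      refine Prod.ext (funext fun j => ?_) e1
      by_cases hj : j = i
      · rw [hj]
        exact h2
      · have := congrFun h1 j
        simpa [Function.update_of_ne hj] using this
  rw [card_product, card_univ, Fintype.card_fin, card_sigma] at h1
  refine h1.trans ((sum_le_sum fun g _ => h g).trans (le_of_eq ?_))
  rw [sum_const, card_univ, smul_eq_mul]

open Classical in
theorem t_cnt : CNTStmt := by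
  intro I Z _ _ q K Bad i h hq
  by_contra hcon
  push Not at hcon
  have hN : 0 < Fintype.card (I → Fin q) := by
    have : Nonempty (Fin q) := ⟨⟨0, by omega⟩⟩
    exact Fintype.card_pos
  have h1 : (univ : Finset (I → Fin q)).card ≤
      ((univ : Finset Z).biUnion fun n => univ.filter fun g : I → Fin q => Bad n g).card := by
    refine card_le_card fun g _ => ?_
    obtain ⟨n, hn⟩ := hcon g
    exact mem_biUnion.2 ⟨n, mem_univ n, mem_filter.2 ⟨mem_univ g, hn⟩⟩
  have h2 := h1.trans card_biUnion_le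
  have h3 : Fintype.card (I → Fin q) * q ≤
      ∑ n : Z, (univ.filter fun g : I → Fin q => Bad n g).card * q := by
    rw [← sum_mul, ← card_univ]
    exact Nat.mul_le_mul_right q h2
  have h4 : ∑ n : Z, (univ.filter fun g : I → Fin q => Bad n g).card * q ≤
      ∑ _n : Z, Fintype.card (I → Fin q) * K :=
    sum_le_sum fun n _ => cnt_bad q K (Bad n) (i n) (h n)
  rw [sum_const, card_univ, smul_eq_mul] at h4
  have h5 : Fintype.card (I → Fin q) * q ≤ Fintype.card (I → Fin q) * (Fintype.card Z * K) := by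
    refine h3.trans (h4.trans (le_of_eq ?_))
    ring
  have h6 := Nat.le_of_mul_le_mul_left h5 hN
  omega

end

open Classical in
theorem t_cn1 : CN1Stmt := by
  intro q a κ δ hκ hδ hq
  have hκ0 : 0 < |κ| := abs_pos.2 hκ
  have key : ∀ t ∈ univ.filter (fun t : Fin q => hd (a + (t : ℕ) * κ) < δ),
      ∀ t' ∈ univ.filter (fun t : Fin q => hd (a + (t : ℕ) * κ) < δ), (t : ℕ) ≤ t' → t = t' := by
    intro t ht t' ht' htt
    obtain ⟨p, hp⟩ := exists_of_hd_lt (mem_filter.1 ht).2
    obtain ⟨p', hp'⟩ := exists_of_hd_lt (mem_filter.1 ht').2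
    rw [abs_lt] at hp hp'
    obtain ⟨d, hd⟩ := Nat.exists_eq_add_of_le htt
    have hdq : (d : ℝ) + 1 ≤ q := by
      have := t'.2
      have h1 : d + 1 ≤ q := by omega
      exact_mod_cast h1
    have e1 : (((t' : ℕ) : ℝ)) = ((t : ℕ) : ℝ) + d := by exact_mod_cast hd
    rw [e1] at hp'
    have hdk : |(d : ℝ) * κ| = d * |κ| := by rw [abs_mul, Nat.abs_cast]
    have hle := le_abs_self ((d : ℝ) * κ)
    have hge := neg_abs_le ((d : ℝ) * κ)
    have hd0 : (0 : ℝ) ≤ d := Nat.cast_nonneg d
    have h2 : ((d : ℝ) + 1) * |κ| ≤ 1 :=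
      (mul_le_mul_of_nonneg_right hdq hκ0.le).trans hq
    have e2 : (((t : ℕ) : ℝ) + d) * κ = ((t : ℕ) : ℝ) * κ + d * κ := by ring
    rw [e2] at hp'
    have h3 : ((p' - p : ℤ) : ℝ) < 1 := by
      push_cast
      linarith [hp.1, hp.2, hp'.1, hp'.2]
    have h4 : (-1 : ℝ) < ((p' - p : ℤ) : ℝ) := by
      push_cast
      linarith [hp.1, hp.2, hp'.1, hp'.2]
    have h3' : p' - p < 1 := by exact_mod_cast h3
    have h4' : -1 < p' - p := by exact_mod_cast h4
    have h5 : p' = p := by omega
    rw [h5] at hp'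
    have h6 : |(d : ℝ) * κ| < 2 * δ := by
      rw [abs_lt]
      constructor <;> linarith [hp.1, hp.2, hp'.1, hp'.2]
    rw [hdk] at h6
    have h7 : (d : ℝ) < 1 := by
      by_contra hc
      rw [not_lt] at hc
      have := mul_le_mul_of_nonneg_right hc hκ0.le
      linarith
    have h8 : d = 0 := by
      have : d < 1 := by exact_mod_cast h7
      omega
    refine Fin.ext ?_
    omega
  refine le_trans (Finset.card_le_one.2 fun t ht t' ht' => ?_) (by norm_num)
  rcases le_total (t : ℕ) t' with h | h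
  · exact key t ht t' ht' h
  · exact (key t' ht' t ht h).symm

theorem t_lsm : LSMStmt := by
  intro f c hf h1 h2
  have hb : IsBoundedUnder (· ≤ ·) atTop f :=
    isBoundedUnder_of ⟨1 / 2, fun n => (hf n).2⟩
  have hc : IsCoboundedUnder (· ≤ ·) atTop f :=
    (isBoundedUnder_of ⟨0, fun n => (hf n).1⟩ : IsBoundedUnder (· ≥ ·) atTop f).isCoboundedUnder_le
  refine le_antisymm (le_of_forall_pos_le_add fun ε hε => limsup_le_of_le hc (h1 ε hε))
    (le_of_forall_pos_le_add fun ε hε => ?_)
  have := le_limsup_of_frequently_le (h2 ε hε) hb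
  linarith

end Pool.LSP
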