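import Pool.Agent.H85.LSP.Nr

/-!
# LSP: `FAA`, `FAB`
-/

set_option autoImplicit false

namespace Pool.LSP

open Filter Topology Finset

theorem zpow_le_one_of {x : ℝ} (hx : 1 < x) (j : ℤ) : 0 < x ^ j := zpow_pos (by linarith) j

theorem neg_zpow_le {x y : ℝ} (hx : 1 < x) (hxy : x ≤ y) {j : ℤ} (hj : j ≤ 0) :
    y ^ j ≤ x ^ j := by
  obtain ⟨k, hk⟩ := Int.eq_ofNat_of_zero_le (show 0 ≤ -j by omega)
  have e : j = -(k : ℤ) := by omega
  rw [e, zpow_neg, zpow_neg, zpow_natCast, zpow_natCast]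
  exact inv_anti₀ (pow_pos (by linarith) k) (pow_le_pow_left₀ (by linarith) hxy k)

theorem re_le (z : ℂ) : |z.re| ≤ ‖z‖ := Complex.abs_re_le_norm z

/-- The decay. -/
theorem decay {x : ℝ} (hx : 1 < x) {ε : ℝ} (hε : 0 < ε) :
    ∃ T : ℕ, ∀ N : ℕ, T ≤ N → (N : ℝ) * x ^ (-(N : ℤ)) ≤ ε ∧ x ^ (-(N : ℤ)) ≤ ε := by
  have hx0 : 0 < x := by linarith
  have h1 := tendsto_self_mul_const_pow_of_lt_one (r := x⁻¹) (by positivity)
    (inv_lt_one_of_one_lt₀ hx)
  have h2 := tendsto_pow_atTop_nhds_zero_of_lt_one (r := x⁻¹) (by positivity)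
    (inv_lt_one_of_one_lt₀ hx)
  obtain ⟨T, hT⟩ := eventually_atTop.1
    ((h1.eventually (Iio_mem_nhds hε)).and (h2.eventually (Iio_mem_nhds hε)))
  refine ⟨T, fun N hN => ?_⟩
  obtain ⟨h3, h4⟩ := hT N hN
  have e : x ^ (-(N : ℤ)) = x⁻¹ ^ N := by
    rw [zpow_neg, zpow_natCast, inv_pow]
  rw [e]
  exact ⟨le_of_lt h3, le_of_lt h4⟩

theorem t_faa (hS : SEQStmt) : FAAStmt := by
  intro β hβ
  have hβ0 : β ≠ 0 := by
    intro h
    rw [h, norm_zero] at hβ
    linarith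
  obtain ⟨lam, hlam⟩ : ∃ lam : ℝ, lam = (1 + ‖β‖) / 2 := ⟨_, rfl⟩
  have l1 : 1 < lam := by rw [hlam]; linarith
  have l2 : lam < ‖β‖ := by rw [hlam]; linarith
  -- the constant
  obtain ⟨C, hC1, hC⟩ : ∃ C : ℝ, 1 ≤ C ∧ ∀ k : ℕ, (k : ℝ) * (lam / ‖β‖) ^ k ≤ C := by
    have h1 := tendsto_self_mul_const_pow_of_lt_one (r := lam / ‖β‖) (by positivity)
      (by rw [div_lt_one (by linarith)]; exact l2)
    obtain ⟨C, hC⟩ := h1.bddAbove_range
    exact ⟨max C 1, le_max_right _ _, fun k => (hC ⟨k, rfl⟩).trans (le_max_left _ _)⟩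
  obtain ⟨v, hv0, hv1, H⟩ := hS (fun n => β ^ n) (fun n => (n : ℂ) * β ^ n)
    (fun j => (β ^ j).re) (fun j => (j : ℂ) * β ^ j) (fun N => (β ^ (-(N : ℤ)), 0))
    (fun N z => (-(N : ℂ) * β ^ (-(N : ℤ)) * z, β ^ (-(N : ℤ)) * z)) lam C 0 l1 (by simp)
    (fun j hj => by
      refine (re_le _).trans ?_
      rw [norm_zpow]
      refine (neg_zpow_le l1 l2.le hj).trans ?_
      have := zpow_le_one_of l1 j
      nlinarith) (by simp) (fun j hj => mul_ne_zero (by exact_mod_cast hj) (zpow_ne_zero j hβ0))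
    (fun j hj => by
      rw [norm_mul, norm_mul, norm_zpow, norm_zpow, zpow_add₀ (by positivity), zpow_one]
      have h1 : ‖((j + 1 : ℤ) : ℂ)‖ = (j : ℝ) + 1 := by
        have h0 : (0 : ℝ) ≤ j := by exact_mod_cast hj
        rw [Complex.norm_intCast]
        push_cast
        exact abs_of_nonneg (by linarith)
      have h2 : ‖(j : ℂ)‖ = (j : ℝ) := by
        have h0 : (0 : ℝ) ≤ j := by exact_mod_cast hj
        rw [Complex.norm_intCast]
        exact abs_of_nonneg h0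
      rw [h1, h2]
      have h0 : (0 : ℝ) ≤ j := by exact_mod_cast hj
      have h3 : 0 < ‖β‖ ^ j := zpow_le_one_of hβ j
      have h4 : lam * (j * ‖β‖ ^ j) = (j * ‖β‖ ^ j) * lam := by ring
      have h5 : ((j : ℝ) + 1) * (‖β‖ ^ j * ‖β‖) = (((j : ℝ) + 1) * ‖β‖ ^ j) * ‖β‖ := by ring
      rw [h4, h5]
      exact mul_le_mul (mul_le_mul_of_nonneg_right (by linarith) h3.le) l2.le (by linarith)
        (by positivity)) (fun j hj => by
      rw [norm_mul, norm_zpow]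
      obtain ⟨k, hk⟩ := Int.eq_ofNat_of_zero_le (show 0 ≤ -j by omega)
      have e : j = -(k : ℤ) := by omega
      have h2 : ‖(j : ℂ)‖ = (k : ℝ) := by
        rw [Complex.norm_intCast, e]
        push_cast
        rw [abs_neg]
        exact abs_of_nonneg (Nat.cast_nonneg k)
      rw [h2, e, zpow_neg, zpow_neg, zpow_natCast, zpow_natCast]
      have h3 := hC k
      rw [div_pow] at h3
      have hb : 0 < ‖β‖ ^ k := pow_pos (by linarith) k
      have hl : 0 < lam ^ k := pow_pos (by linarith) k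
      have h4 : (k : ℝ) * (‖β‖ ^ k)⁻¹ = ((k : ℝ) * (lam ^ k / ‖β‖ ^ k)) * (lam ^ k)⁻¹ := by
        field_simp
      rw [h4]
      exact mul_le_mul_of_nonneg_right h3 (by positivity)) (fun N n => by
      unfold ev
      simp only
      rw [zero_mul, add_zero, ← zpow_add₀ hβ0]
      congr 2
      ring) (fun N z n => by
      unfold ev
      simp only
      have e : β ^ (n - (N : ℤ)) = β ^ (-(N : ℤ)) * β ^ n := by
        rw [← zpow_add₀ hβ0]
        congr 1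
        ring
      rw [e]
      congr 1
      push_cast
      ring) (fun ε hε => by
      obtain ⟨T, hT⟩ := decay hβ hε
      refine ⟨T, fun N hN => ?_⟩
      obtain ⟨h1, h2⟩ := hT N hN
      refine ⟨?_, fun z hz => ?_⟩
      · rw [Prod.norm_def]
        simp only [norm_zero, norm_zpow]
        exact max_le h2 hε.le
      · rw [Prod.norm_def]
        simp only [norm_mul, norm_neg, norm_zpow, Complex.norm_natCast]
        have h3 : 0 < ‖β‖ ^ (-(N : ℤ)) := zpow_le_one_of hβ _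
        refine max_le ?_ ?_
        · have h5 : 0 ≤ (N : ℝ) * ‖β‖ ^ (-(N : ℤ)) := by positivity
          have := mul_le_mul_of_nonneg_left hz h5
          linarith
        · have := mul_le_mul_of_nonneg_left hz h3.le
          linarith)
  refine ⟨v, hv0, hv1, fun c hc => ?_⟩
  obtain ⟨p, hp⟩ := H c hc
  refine ⟨p.1, p.2, ?_⟩
  rw [← hp]
  congr 1
  funext n
  unfold ev
  congr 2
  show (p.1 + p.2 * (n : ℂ)) * β ^ n =
    p.1 * β ^ ((n : ℤ)) + p.2 * (((n : ℤ) : ℂ) * β ^ ((n : ℤ)))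
  rw [zpow_natCast]
  push_cast
  ring

theorem t_fab (hS : SEQStmt) : FABStmt := by
  intro β γ hγ hβ
  have hβ1 : 1 < ‖β‖ := by linarith
  have hβ0 : β ≠ 0 := by
    intro h
    rw [h, norm_zero] at hβ1
    linarith
  have hγ0 : γ ≠ 0 := by
    intro h
    rw [h, norm_zero] at hγ
    linarith
  have hbp : 0 < ‖β‖ := by linarith
  have hgp : 0 < ‖γ‖ := by linarith
  -- the index
  obtain ⟨j₀, hj₀⟩ : ∃ j₀ : ℕ, ∀ k : ℕ, j₀ ≤ k →
      2 * ‖γ‖ ^ (k + 1) ≤ ‖β‖ ^ k * (‖β‖ - ‖γ‖) := by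
    have h1 : 1 < ‖β‖ / ‖γ‖ := by rwa [one_lt_div hgp]
    obtain ⟨j₀, hj₀⟩ := pow_unbounded_of_one_lt (2 * ‖γ‖ / (‖β‖ - ‖γ‖)) h1
    refine ⟨j₀, fun k hk => ?_⟩
    have h2 : (‖β‖ / ‖γ‖) ^ j₀ ≤ (‖β‖ / ‖γ‖) ^ k := pow_le_pow_right₀ h1.le hk
    have h3 : 2 * ‖γ‖ / (‖β‖ - ‖γ‖) ≤ (‖β‖ / ‖γ‖) ^ k := hj₀.le.trans h2
    rw [div_le_iff₀ (by linarith), div_pow] at h3
    have h4 : 0 < ‖γ‖ ^ k := pow_pos hgp k
    have h5 := mul_le_mul_of_nonneg_right h3 h4.le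
    have h6 : ‖β‖ ^ k / ‖γ‖ ^ k * (‖β‖ - ‖γ‖) * ‖γ‖ ^ k = ‖β‖ ^ k * (‖β‖ - ‖γ‖) := by
      field_simp
    rw [h6] at h5
    rw [pow_succ]
    linarith
  obtain ⟨v, hv0, hv1, H⟩ := hS (fun n => β ^ n) (fun n => γ ^ n)
    (fun j => (β ^ j).re) (fun j => β ^ j - γ ^ j) (fun N => (β ^ (-(N : ℤ)), 0))
    (fun N z => (z * β ^ (-(N : ℤ)), -(z * γ ^ (-(N : ℤ))))) ‖γ‖ 2 j₀ hγ (by simp)
    (fun j hj => by
      refine (re_le _).trans ?_
      rw [norm_zpow]
      refine (neg_zpow_le hγ hβ.le hj).trans ?_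
      have := zpow_le_one_of hγ j
      linarith) (by simp) (fun j hj h => by
      rw [sub_eq_zero] at h
      have h1 : ‖β‖ ^ j = ‖γ‖ ^ j := by rw [← norm_zpow, ← norm_zpow, h]
      rcases lt_or_gt_of_ne hj with h2 | h2
      · have h3 := zpow_lt_zpow_left₀ (n := -j) (by omega) hgp.le hβ
        rw [zpow_neg, zpow_neg, h1] at h3
        exact lt_irrefl _ h3
      · have h3 := zpow_lt_zpow_left₀ (n := j) h2 hgp.le hβ
        rw [h1] at h3
        exact lt_irrefl _ h3)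
    (fun j hj => by
      obtain ⟨k, hk⟩ := Int.eq_ofNat_of_zero_le (show 0 ≤ j by omega)
      have hk' : j₀ ≤ k := by omega
      subst hk
      have e : ((k : ℤ) + 1) = ((k + 1 : ℕ) : ℤ) := by push_cast; ring
      rw [e, zpow_natCast, zpow_natCast, zpow_natCast, zpow_natCast]
      have h1 : ‖β ^ k - γ ^ k‖ ≤ ‖β‖ ^ k + ‖γ‖ ^ k := by
        refine (norm_sub_le _ _).trans ?_
        rw [norm_pow, norm_pow]
      have h2 : ‖β‖ ^ (k + 1) - ‖γ‖ ^ (k + 1) ≤ ‖β ^ (k + 1) - γ ^ (k + 1)‖ := by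
        rw [← norm_pow, ← norm_pow]
        exact norm_sub_norm_le _ _
      have h3 := hj₀ k hk'
      have h4 := mul_le_mul_of_nonneg_left h1 hgp.le
      rw [pow_succ] at h3
      rw [pow_succ, pow_succ] at h2
      have e1 : ‖γ‖ * (‖β‖ ^ k + ‖γ‖ ^ k) = ‖β‖ ^ k * ‖γ‖ + ‖γ‖ ^ k * ‖γ‖ := by ring
      have e2 : ‖β‖ ^ k * (‖β‖ - ‖γ‖) = ‖β‖ ^ k * ‖β‖ - ‖β‖ ^ k * ‖γ‖ := by ring
      rw [e1] at h4
      rw [e2] at h3
      linarith) (fun j hj => by
      refine (norm_sub_le _ _).trans ?_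
      rw [norm_zpow, norm_zpow]
      linarith [neg_zpow_le hγ hβ.le hj]) (fun N n => by
      unfold ev
      simp only
      rw [zero_mul, add_zero, ← zpow_add₀ hβ0]
      congr 2
      ring) (fun N z n => by
      unfold ev
      simp only
      have e : β ^ (n - (N : ℤ)) = β ^ (-(N : ℤ)) * β ^ n := by
        rw [← zpow_add₀ hβ0]
        congr 1
        ring
      have e' : γ ^ (n - (N : ℤ)) = γ ^ (-(N : ℤ)) * γ ^ n := by
        rw [← zpow_add₀ hγ0]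
        congr 1
        ring
      rw [e, e']
      congr 1
      ring) (fun ε hε => by
      obtain ⟨T, hT⟩ := decay hγ hε
      refine ⟨T, fun N hN => ?_⟩
      obtain ⟨-, h2⟩ := hT N hN
      have h1 : ‖β‖ ^ (-(N : ℤ)) ≤ ε := (neg_zpow_le hγ hβ.le (by omega)).trans h2
      refine ⟨?_, fun z hz => ?_⟩
      · rw [Prod.norm_def]
        simp only [norm_zero, norm_zpow]
        exact max_le h1 hε.le
      · rw [Prod.norm_def]
        simp only [norm_mul, norm_neg, norm_zpow]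
        have h3 : 0 < ‖β‖ ^ (-(N : ℤ)) := zpow_le_one_of hβ1 _
        have h4 : 0 < ‖γ‖ ^ (-(N : ℤ)) := zpow_le_one_of hγ _
        refine max_le ?_ ?_
        · have := mul_le_mul_of_nonneg_right hz h3.le
          linarith
        · have := mul_le_mul_of_nonneg_right hz h4.le
          linarith)
  refine ⟨v, hv0, hv1, fun c hc => ?_⟩
  obtain ⟨p, hp⟩ := H c hc
  refine ⟨p.1, p.2, ?_⟩
  rw [← hp]
  congr 1

end Pool.LSP
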