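import Pool.Agent.H85.LSP.Nr

/-!
# LSP: `NOI`
-/

set_option autoImplicit false

namespace Pool.LSP

open Polynomial Filter Topology Finset

theorem xs_add_mul {P : ℤ[X]} {g : ℂ → ℂ[X]} (hg : Xi P 0 g) {m : ℕ} {a : ℤ}
    (ha : ∀ α ∈ Out P, α ^ m = (a : ℂ)) (n q : ℕ) :
    xs P g (n + q * m) = (a ^ q : ℤ) * xs P g n := by
  have h1 : ∑ α ∈ Out P, (g α).eval ((n + q * m : ℕ) : ℂ) * α ^ (n + q * m) =
      ((a ^ q : ℤ) : ℝ) * ∑ α ∈ Out P, (g α).eval (n : ℂ) * α ^ n := by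
    rw [mul_sum]
    refine sum_congr rfl fun α hα => ?_
    have h2 := eq_C_of_natDegree_le_zero (hg α hα).1
    rw [h2, eval_C, eval_C, pow_add, mul_comm q m, pow_mul, ha α hα]
    push_cast
    ring
  unfold xs
  rw [h1, Complex.re_ofReal_mul]

theorem nr_half_int (k : ℤ) : nr ((k : ℝ) + 1 / 2) = 1 / 2 := by
  rw [add_comm, nr_add_int]
  exact nr_of_mem (by norm_num) le_rfl

theorem lim_le {P : ℤ[X]} {m : ℕ} {a : ℤ} (ha : ∀ α ∈ Out P, α ^ m = (a : ℂ)) {c : ℝ}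
    (hc : c ∈ Lk P 0) (q : ℕ) : nr ((a ^ q : ℤ) * c) ≤ c := by
  obtain ⟨g, hg, hl⟩ := hc
  obtain ⟨f, hf⟩ : ∃ f : ℕ → ℝ, f = fun n : ℕ => nr (xs P g n) := ⟨_, rfl⟩
  rw [← hf] at hl
  have f0 : ∀ n, 0 ≤ f n := fun n => by rw [hf]; exact nr_nonneg _
  have f1 : ∀ n, f n ≤ 1 / 2 := fun n => by rw [hf]; exact nr_le_half _
  have fq : ∀ n, f (n + q * m) = nr ((a ^ q : ℤ) * f n) := fun n => by
    rw [hf]
    simp only
    rw [xs_add_mul hg ha, nr_int_mul]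
  have hb : IsBoundedUnder (· ≤ ·) atTop f := isBoundedUnder_of ⟨1 / 2, f1⟩
  have hco : IsCoboundedUnder (· ≤ ·) atTop f :=
    (isBoundedUnder_of ⟨0, f0⟩ : IsBoundedUnder (· ≥ ·) atTop f).isCoboundedUnder_le
  obtain ⟨M, hM⟩ : ∃ M : ℝ, M = |((a ^ q : ℤ) : ℝ)| + 1 := ⟨_, rfl⟩
  have hM0 : 0 < M := by rw [hM]; positivity
  refine le_of_forall_pos_le_add fun ε hε => ?_
  have hδ : 0 < ε / M := by positivity
  have h1 : ∃ᶠ n in atTop, c - ε / M < f n :=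
    frequently_lt_of_lt_limsup hco (by rw [hl]; linarith)
  have h2 : ∀ᶠ n in atTop, f n < c + ε / M :=
    eventually_lt_of_limsup_lt (by rw [hl]; linarith) hb
  have h3 : ∃ᶠ n in atTop, nr ((a ^ q : ℤ) * c) - ε ≤ f n := by
    rw [frequently_atTop]
    intro N
    obtain ⟨n, hn, hn1, hn2⟩ := (frequently_atTop.1 (h1.and_eventually h2)) N
    refine ⟨n + q * m, by omega, ?_⟩
    rw [fq]
    have h4 := abs_nr_sub ((a ^ q : ℤ) * c) ((a ^ q : ℤ) * f n)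
    rw [← mul_sub, abs_mul] at h4
    have h5 : |c - f n| ≤ ε / M := by
      rw [abs_le]
      constructor <;> linarith
    have h6 : |((a ^ q : ℤ) : ℝ)| * |c - f n| ≤ M * (ε / M) :=
      mul_le_mul (by rw [hM]; linarith) h5 (abs_nonneg _) hM0.le
    have h7 : M * (ε / M) = ε := by field_simp
    have h8 := le_abs_self (nr ((a ^ q : ℤ) * c) - nr ((a ^ q : ℤ) * f n))
    linarith
  have h4 := le_limsup_of_frequently_le h3 hb
  rw [hl] at h4
  linarith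

theorem t_noi : NOIStmt := by
  rintro P ⟨α, hα⟩ ⟨m, a, hm, ha⟩ ⟨u, v, huv, hI⟩
  have hα1 : 1 < ‖α‖ := by
    classical
    unfold Out at hα
    exact (mem_filter.1 hα).2
  -- `|a| > 1`
  have ha1 : 1 < |(a : ℝ)| := by
    have h1 : ‖α ^ m‖ = |(a : ℝ)| := by
      rw [ha α hα, Complex.norm_intCast]
    rw [← h1, norm_pow]
    exact one_lt_pow₀ hα1 (by omega)
  have hv : v ≤ 1 / 2 := by
    obtain ⟨g, hg, hl⟩ := hI ⟨huv.le, le_rfl⟩
    rw [← hl]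
    refine limsup_le_of_le ?_ (Eventually.of_forall fun n => nr_le_half _)
    exact (isBoundedUnder_of ⟨0, fun n => nr_nonneg _⟩ :
      IsBoundedUnder (· ≥ ·) atTop fun n : ℕ => nr (xs P g n)).isCoboundedUnder_le
  obtain ⟨q, hq⟩ := pow_unbounded_of_one_lt (1 / (v - u)) ha1
  obtain ⟨T, hT⟩ : ∃ T : ℝ, T = |(a : ℝ)| ^ q := ⟨_, rfl⟩
  rw [← hT] at hq
  have hT0 : 0 < T := by rw [hT]; positivity
  have hT1 : 1 < T * (v - u) := by
    rwa [div_lt_iff₀ (by linarith)] at hq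
  obtain ⟨k, hk⟩ : ∃ k : ℤ, k = ⌊T * u - 1 / 2⌋ + 1 := ⟨_, rfl⟩
  have k1 : T * u - 1 / 2 < k := by
    rw [hk]
    push_cast
    exact Int.lt_floor_add_one _
  have k2 : (k : ℝ) ≤ T * u + 1 / 2 := by
    have := Int.floor_le (T * u - 1 / 2)
    rw [hk]
    push_cast
    linarith
  obtain ⟨c, hc⟩ : ∃ c : ℝ, c = ((k : ℝ) + 1 / 2) / T := ⟨_, rfl⟩
  have hcT : T * c = (k : ℝ) + 1 / 2 := by
    rw [hc]
    field_simp
  have c1 : u ≤ c := by
    rw [hc, le_div_iff₀ hT0]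
    linarith
  have c2 : c < v := by
    rw [hc, div_lt_iff₀ hT0]
    linarith
  have h1 := lim_le ha (hI ⟨c1, c2.le⟩) q
  have h2 : nr ((a ^ q : ℤ) * c) = 1 / 2 := by
    rcases abs_choice ((a ^ q : ℤ) : ℝ) with h | h
    · have : ((a ^ q : ℤ) : ℝ) = T := by
        rw [← h, hT, ← abs_pow]
        push_cast
        rfl
      rw [this, hcT]
      exact nr_half_int k
    · have : ((a ^ q : ℤ) : ℝ) = -T := by
        have : T = |((a ^ q : ℤ) : ℝ)| := by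
          rw [hT, ← abs_pow]
          push_cast
          rfl
        rw [this, h]
        ring
      rw [this, neg_mul, nr_neg, hcT]
      exact nr_half_int k
  linarith

end Pool.LSP
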